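import Pool.Agent.V11230.Lobby2
import Pool.Agent.NPC.Classes
import Pool.Agent.NPC.Dec

/-!
# Unanimity lobbying with a super-constant quota is not in P, unless Clique is FPT

Let `z' m = min (z m) (m - z m)` be nondecreasing, unbounded and computable.  A polynomial-time
algorithm for `OLD(Unan, ψ_z)` gives a fixed-parameter algorithm for Clique, with the size of the
clique as parameter: a graph is embedded into an instance whose number `m` of issues is so large
that `z' m` exceeds a function of the parameter, and the number of effective issues is adjusted by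
issues that pass or fail anyway.  The value `z m` is found by queries with one voter.
-/

set_option autoImplicit false

namespace Pool.Agent.NPC.V11230.LB

open Pool.Agent.NPC Pool.Agent.H622R2

/-! ### Polynomial time -/

section

variable {α : Type} [TEnc α]

/-- Queries to a polynomial-time algorithm. -/
theorem poly_oracle {β : Type} [TEnc β] {D : List Bool → List Bool} (hD : PolyTime D) {h : α → β}
    (hh : Poly h) : Poly (fun a => decide (D (bits (h a)) = [true])) := by
  have h1 : PC (fun x : List Bool => x) (fun x : List Bool => x) D :=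
    H642R2.TMSim.polyTime_toPC hD
  have h2 : PC (bits : α → List Bool) (fun x : List Bool => x) (fun a => bits (h a)) := hh
  have h3 : PC (bits : α → List Bool) (fun x : List Bool => x) (fun a => D (bits (h a))) :=
    PC.comp h1 h2
  have h4 : Poly (fun a => D (bits (h a))) := PC.comp (g := fun x => x) PC.rawIn h3
  exact Poly.decide_eq h4 (Poly.const [true])

theorem poly_tab {N m : α → ℕ} {b : α → ℕ → ℕ → Bool} (hN : UPoly N) (hm : UPoly m)
    (hb : Poly (fun p : (α × ℕ) × ℕ => b p.1.1 p.1.2 p.2)) :
    Poly (fun a => tab (N a) (m a) (b a)) := by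
  unfold tab
  refine Poly.map (F := fun a i => (List.range (m a)).map (fun j => b a i j)) (UPoly.range hN) ?_
  exact Poly.map (F := fun (p : α × ℕ) j => b p.1 p.2 j) ((UPoly.range hm).comp (Poly.fst Poly.id))
    hb

theorem poly_entry {M : α → List (List Bool)} {i j : α → ℕ} (hM : Poly M) (hi : Poly i)
    (hj : Poly j) : Poly (fun a => entry (M a) (i a) (j a)) :=
  Poly.getD (Poly.getD hM hi (Poly.const [])) hj (Poly.const false)

theorem poly_isE {M : α → List (List Bool)} {n j : α → ℕ} (hM : Poly M) (hn : Poly n)
    (hj : Poly j) : Poly (fun a => isE (M a) (n a) (j a)) := by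
  unfold isE adj
  have h1 := Poly.div hj hn
  have h2 := Poly.mod hj hn
  exact Poly.and (Poly.decide_lt h1 h2) (Poly.or (poly_entry hM h1 h2) (poly_entry hM h2 h1))

theorem poly_b1 {M : α → List (List Bool)} {n d i j : α → ℕ} (hM : Poly M) (hn : Poly n)
    (hd : Poly d) (hi : Poly i) (hj : Poly j) :
    Poly (fun a => b1 (M a) (n a) (d a) (i a) (j a)) := by
  unfold b1
  exact Poly.ite (Poly.decide_lt hj (Poly.mul hn hn)) (Poly.and (Poly.and (poly_isE hM hn hj)
    (Poly.not (Poly.decide_eq hi (Poly.div hj hn)))) (Poly.not (Poly.decide_eq hi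
    (Poly.mod hj hn)))) (Poly.decide_lt hj (Poly.add (Poly.mul hn hn) hd))

theorem poly_b2 {M : α → List (List Bool)} {n d i j : α → ℕ} (hM : Poly M) (hn : Poly n)
    (hd : Poly d) (hi : Poly i) (hj : Poly j) :
    Poly (fun a => b2 (M a) (n a) (d a) (i a) (j a)) := by
  unfold b2
  exact Poly.ite (Poly.decide_lt hi (Poly.mul hn hn)) (Poly.not (Poly.and (poly_isE hM hn hi)
    (Poly.or (Poly.decide_eq hj (Poly.div hi hn)) (Poly.decide_eq hj (Poly.mod hi hn)))))
    (Poly.not (Poly.and (Poly.decide_le hn hj) (Poly.decide_lt hj (Poly.add hn hd))))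

end

/-! ### The algorithm -/

/-- the value `z m`, found by queries -/
def zval (D : List Bool → List Bool) (m : ℕ) : ℕ :=
  ((List.range (m + 1)).filter (fun v =>
    !(decide (D (bits (tab 1 m (fun _ j => decide (j < v)), 0)) = [true])))).length

/-- the number of edges -/
def nE (M : List (List Bool)) : ℕ :=
  ((List.range (M.length * M.length)).filter (fun j => isE M M.length j)).length

/-- the answer, if `m` issues are used, `F` is the padding and `zm = z m` -/
def ans0 (D : List Bool → List Bool) (M : List (List Bool)) (k F m zm : ℕ) : Bool :=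
  if k = 0 then true else if k = 1 then decide (0 < M.length) else
  if 2 * zm ≤ m then
    decide (D (bits (tab (M.length + F + 1) m (b1 M M.length (zm - k * (k - 1) / 2)), k)) = [true])
  else decide (k * (k - 1) / 2 ≤ nE M) &&
    decide (D (bits (tab (M.length * M.length + M.length * M.length + 1) m
      (b2 M M.length (m - zm - k)), nE M - k * (k - 1) / 2)) = [true])

/-- the number of issues -/
def mOf (I : List (List Bool) × ℕ × List Unit) : ℕ :=
  2 * (I.1.length * I.1.length) + I.2.2.length

/-- the algorithm -/
def ans (D : List Bool → List Bool) (I : List (List Bool) × ℕ × List Unit) : Bool :=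
  ans0 D I.1 I.2.1 I.2.2.length (mOf I) (zval D (mOf I))

theorem poly_ans {D : List Bool → List Bool} (hD : PolyTime D) : Poly (ans D) := by
  have hM : Poly (fun I : List (List Bool) × ℕ × List Unit => I.1) := Poly.fst Poly.id
  have hk : Poly (fun I : List (List Bool) × ℕ × List Unit => I.2.1) := Poly.fst (Poly.snd Poly.id)
  have hF : Poly (fun I : List (List Bool) × ℕ × List Unit => I.2.2) := Poly.snd (Poly.snd Poly.id)
  have un : UPoly (fun I : List (List Bool) × ℕ × List Unit => I.1.length) := UPoly.length hM
  have uF : UPoly (fun I : List (List Bool) × ℕ × List Unit => I.2.2.length) := UPoly.length hF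
  have unn := UPoly.mul un un
  have um : UPoly mOf := UPoly.add (UPoly.mul (UPoly.const 2) unn) uF
  have pn := un.toPoly
  have pm := um.toPoly
  have pz : Poly (fun I => zval D (mOf I)) := by
    unfold zval
    refine Poly.length (Poly.filter (l := fun I => List.range (mOf I + 1))
      (p := fun I v => !(decide (D (bits (tab 1 (mOf I) (fun _ j => decide (j < v)), 0)) =
        [true]))) (UPoly.range (UPoly.add um (UPoly.const 1))) ?_)
    refine Poly.not (poly_oracle hD (Poly.pair (poly_tab (UPoly.const 1)
      (um.comp (Poly.fst Poly.id)) ?_) (Poly.const 0)))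
    exact Poly.decide_lt (Poly.snd Poly.id) (Poly.snd (Poly.fst (Poly.fst Poly.id)))
  have pc : Poly (fun I : List (List Bool) × ℕ × List Unit => I.2.1 * (I.2.1 - 1) / 2) :=
    Poly.div (Poly.mul hk (Poly.sub hk (Poly.const 1))) (Poly.const 2)
  have pE : Poly (fun I : List (List Bool) × ℕ × List Unit => nE I.1) := by
    unfold nE
    refine Poly.length (Poly.filter (l := fun I : List (List Bool) × ℕ × List Unit =>
      List.range (I.1.length * I.1.length)) (p := fun I j => isE I.1 I.1.length j)
      (UPoly.range unn) ?_)
    exact poly_isE (hM.comp (Poly.fst Poly.id)) (pn.comp (Poly.fst Poly.id)) (Poly.snd Poly.id)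
  unfold ans ans0
  refine Poly.ite (Poly.decide_eq hk (Poly.const 0)) (Poly.const true)
    (Poly.ite (Poly.decide_eq hk (Poly.const 1)) (Poly.decide_lt (Poly.const 0) pn)
      (Poly.ite (Poly.decide_le (Poly.mul (Poly.const 2) pz) pm) ?_ (Poly.and
        (Poly.decide_le pc pE) ?_)))
  · refine poly_oracle hD (Poly.pair (poly_tab (UPoly.add (UPoly.add un uF) (UPoly.const 1)) um ?_)
      hk)
    exact poly_b1 (hM.comp (Poly.fst (Poly.fst Poly.id))) (pn.comp (Poly.fst (Poly.fst Poly.id)))
      ((Poly.sub pz pc).comp (Poly.fst (Poly.fst Poly.id))) (Poly.snd (Poly.fst Poly.id))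
      (Poly.snd Poly.id)
  · refine poly_oracle hD (Poly.pair (poly_tab (UPoly.add (UPoly.add unn unn) (UPoly.const 1)) um
      ?_) (Poly.sub pE pc))
    exact poly_b2 (hM.comp (Poly.fst (Poly.fst Poly.id))) (pn.comp (Poly.fst (Poly.fst Poly.id)))
      ((Poly.sub (Poly.sub pm pz) hk).comp (Poly.fst (Poly.fst Poly.id)))
      (Poly.snd (Poly.fst Poly.id)) (Poly.snd Poly.id)

/-! ### Correctness -/

theorem filter_lt (c N : ℕ) : (List.range N).filter (fun v => decide (v < c)) =
    List.range (min c N) := by
  induction N with
  | zero => simp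
  | succ N ih =>
    rw [List.range_succ, List.filter_append, ih]
    by_cases h : N < c
    · rw [min_eq_right (by omega), min_eq_right (by omega)]
      simp [h, List.range_succ]
    · rw [min_eq_left (by omega), min_eq_left (by omega)]
      simp [h]

theorem zval_eq {z : ℕ → ℕ} {D : List Bool → List Bool}
    (hdec : ∀ I, Valid I → (D (bits I) = [true] ↔ OLD z I)) {m : ℕ} (hz : z m ≤ m) :
    zval D m = z m := by
  unfold zval
  have h1 : (List.range (m + 1)).filter (fun v =>
      !(decide (D (bits (tab 1 m (fun _ j => decide (j < v)), 0)) = [true]))) =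
      (List.range (m + 1)).filter (fun v => decide (v < z m)) := by
    refine List.filter_congr fun v hv => ?_
    rw [List.mem_range] at hv
    have h2 := hdec _ (tab_valid (m := m) (fun _ j => decide (j < v)) Nat.one_pos (Nat.zero_le 1))
    have h3 : OLD z (tab 1 m (fun _ j => decide (j < v)), 0) ↔ z m ≤ v := by
      rw [old_tab _ Nat.one_pos]
      have h4 : ((Finset.range m).filter (fun j => j < v)).card = v := by
        have : (Finset.range m).filter (fun j => j < v) = Finset.range v := by
          ext x
          simp only [Finset.mem_filter, Finset.mem_range]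
          omega
        rw [this, Finset.card_range]
      constructor
      · rintro ⟨R, _, hR, h⟩
        have hR' : R = ∅ := Finset.card_eq_zero.1 (by omega)
        subst hR'
        refine h.trans (le_of_le_of_eq (Finset.card_le_card fun x hx => ?_) h4)
        rw [Finset.mem_filter] at hx ⊢
        refine ⟨hx.1, ?_⟩
        have := hx.2 0 Nat.one_pos (by simp)
        simpa using this
      · intro h
        refine ⟨∅, by simp, by simp, h.trans (le_of_eq_of_le h4.symm
          (Finset.card_le_card fun x hx => ?_))⟩
        rw [Finset.mem_filter] at hx ⊢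
        exact ⟨hx.1, fun _ _ _ => by simpa using hx.2⟩
    rw [h3] at h2
    by_cases h5 : v < z m
    · have : ¬ D (bits (tab 1 m (fun _ j => decide (j < v)), 0)) = [true] := fun h => by
        have := h2.1 h
        omega
      simp [this, h5]
    · have : D (bits (tab 1 m (fun _ j => decide (j < v)), 0)) = [true] := h2.2 (by omega)
      simp [this, h5]
  rw [h1, filter_lt, List.length_range]
  omega

theorem nE_eq (M : List (List Bool)) : nE M = (allE M M.length).card := by
  unfold nE allE
  rw [Finset.card_def, Finset.filter_val, Finset.range_val, Multiset.range, Multiset.filter_coe,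
    Multiset.coe_card]
  congr 1
  exact List.filter_congr fun x _ => by simp

theorem clique_iff (M : List (List Bool)) (k : ℕ) :
    (∃ S, IsCl M M.length k S) ↔ ∃ s : Finset (Fin M.length), (matGraph M).IsNClique k s := by
  constructor
  · rintro ⟨S, hS, hk, hcl⟩
    refine ⟨S.attachFin (fun x hx => Finset.mem_range.1 (hS hx)), ?_, ?_⟩
    · intro u hu v hv huv
      have hu' : (u : ℕ) ∈ S := by simpa using hu
      have hv' : (v : ℕ) ∈ S := by simpa using hv
      have hne : (u : ℕ) ≠ v := fun h => huv (Fin.ext h)
      refine ⟨huv, ?_⟩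
      rcases lt_or_gt_of_ne hne with h | h
      · have := hcl _ hu' _ hv' h
        unfold adj at this
        rwa [Bool.or_eq_true] at this
      · have := hcl _ hv' _ hu' h
        unfold adj at this
        rw [Bool.or_eq_true] at this
        exact this.symm
    · rw [Finset.card_attachFin]
      exact hk
  · rintro ⟨s, hs⟩
    refine ⟨s.map Fin.valEmbedding, ?_, ?_, ?_⟩
    · intro x hx
      obtain ⟨i, _, rfl⟩ := Finset.mem_map.1 hx
      exact Finset.mem_range.2 i.2
    · rw [Finset.card_map]
      exact hs.card_eq
    · intro u hu v hv huv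
      obtain ⟨i, hi, rfl⟩ := Finset.mem_map.1 hu
      obtain ⟨j, hj, rfl⟩ := Finset.mem_map.1 hv
      have h1 := hs.isClique hi hj (fun h => by rw [h] at huv; exact lt_irrefl _ huv)
      unfold adj
      rw [Bool.or_eq_true]
      exact h1.2

theorem ans_spec {z : ℕ → ℕ} {D : List Bool → List Bool}
    (hdec : ∀ I, Valid I → (D (bits I) = [true] ↔ OLD z I)) (hz : ∀ m, z m ≤ m)
    (M : List (List Bool)) (k : ℕ) (l : List Unit)
    (hl : ∀ m, l.length ≤ m → k * (k - 1) / 2 + k ≤ min (z m) (m - z m)) :
    ans D (M, k, l) = true ↔ ∃ s : Finset (Fin M.length), (matGraph M).IsNClique k s := by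
  unfold ans ans0 mOf
  simp only
  rw [zval_eq hdec (hz _)]
  set m := 2 * (M.length * M.length) + l.length with hm
  have hl' : k * (k - 1) / 2 + k ≤ min (z m) (m - z m) := hl m (by omega)
  have hlk : k ≤ l.length := by
    have := hz l.length
    have := (hl l.length le_rfl).trans (min_le_left _ _)
    omega
  have h1 := hl'.trans (min_le_left _ _)
  have h2 := hl'.trans (min_le_right _ _)
  split_ifs with hk0 hk1 h3
  · refine iff_of_true rfl ⟨∅, ?_⟩
    rw [hk0]
    simp
  · rw [decide_eq_true_eq, hk1]
    constructor
    · intro h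
      exact ⟨{⟨0, h⟩}, by simp [SimpleGraph.isNClique_iff]⟩
    · rintro ⟨s, hs⟩
      have := hs.card_eq
      obtain ⟨i, _⟩ := Finset.card_pos.1 (by omega : 0 < s.card)
      exact i.pos
  · rw [decide_eq_true_eq, hdec _ (tab_valid _ (by omega) (by omega)), ← Nat.choose_two_right,
      ← clique_iff]
    rw [← Nat.choose_two_right] at h1
    exact red1 (by omega) hlk (by omega) (by omega)
  · rw [← Nat.choose_two_right] at h1 h2 ⊢
    rw [Bool.and_eq_true, decide_eq_true_eq, decide_eq_true_eq, nE_eq]
    by_cases hE : k.choose 2 ≤ (allE M M.length).card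
    · have hle := allE_card (M := M) (n := M.length)
      have hn : M.length ≤ M.length * M.length := Nat.le_mul_self _
      rw [hdec _ (tab_valid _ (by omega) (by omega)), ← clique_iff]
      rw [red2 (by omega) hE (hz m) (by omega) (by omega)]
      exact ⟨fun h => h.2, fun h => ⟨hE, h⟩⟩
    · refine iff_of_false (fun h => hE h.1) ?_
      rw [← clique_iff]
      rintro ⟨S, hS⟩
      have h4 := card_of_clique hS
      have h5 := Finset.card_le_card (EI_sub (M := M) (n := M.length) S)
      omega

/-! ### The function of the parameter -/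

theorem computable_find {z : ℕ → ℕ} (hz : Computable z)
    (h : ∀ B, ∃ F, B ≤ min (z F) (F - z F)) :
    ∃ g : ℕ → ℕ, Computable g ∧ ∀ B, B ≤ min (z (g B)) (g B - z (g B)) := by
  classical
  refine ⟨fun B => Nat.find (h B), ?_, fun B => Nat.find_spec (h B)⟩
  have hp : Computable₂ (fun B F : ℕ => decide (B ≤ min (z F) (F - z F))) := by
    have hF : Computable (fun p : ℕ × ℕ => min (z p.2) (p.2 - z p.2)) :=
      Primrec.nat_min.to_comp.comp (hz.comp Computable.snd)
        (Primrec.nat_sub.to_comp.comp Computable.snd (hz.comp Computable.snd))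
    exact (Primrec.nat_le.decide).to_comp.comp Computable.fst hF
  have h1 : Partrec (fun B => Nat.rfind (fun F =>
      (Part.some (decide (B ≤ min (z F) (F - z F))) : Part Bool))) := Partrec.rfind hp
  refine h1.of_eq fun B => Part.eq_some_iff.2 (Nat.mem_rfind.2 ⟨?_, ?_⟩)
  · rw [Part.mem_some_iff]
    exact (decide_eq_true (Nat.find_spec (h B))).symm
  · intro m hm
    rw [Part.mem_some_iff]
    exact (decide_eq_false (Nat.find_min (h B) hm)).symm

/-- the algorithm on bit strings -/
def alg (D : List Bool → List Bool) (x : List Bool) : List Bool :=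
  [((unbits (List (List Bool) × ℕ × List Unit) x).map (ans D)).getD false]

theorem polyTime_alg {D : List Bool → List Bool} (hD : PolyTime D) : PolyTime (alg D) := by
  refine polyTime_of_poly
    (g := fun x => ((unbits (List (List Bool) × ℕ × List Unit) x).map (ans D)).getD false) ?_
  exact (Poly.optCases (o := fun x => unbits (List (List Bool) × ℕ × List Unit) x)
      (g := fun _ => false) (h := fun _ I => ans D I) poly_unbits (Poly.const false)
      ((poly_ans hD).comp (Poly.snd Poly.id))).congr fun x => by
        cases unbits (List (List Bool) × ℕ × List Unit) x <;> rfl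

theorem alg_bits (D : List Bool → List Bool) (I : List (List Bool) × ℕ × List Unit) :
    alg D (bits I) = [true] ↔ ans D I = true := by
  unfold alg
  rw [unbits_bits, Option.map_some, Option.getD_some]
  simp

end Pool.Agent.NPC.V11230.LB

namespace Pool.Agent.Results.MP_8eff38_lc.SuperConstantQuota

open Pool.Agent.NPC Pool.Agent.NPC.V11230.LB Pool.Agent.H622R2

/-- Clique is fixed-parameter tractable: there are a computable function `f` and a polynomial-time
algorithm that, given a graph, a number `k` and `f k` in unary, decides whether the graph has a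
clique with `k` vertices. -/
def CliqueFPT : Prop :=
  ∃ f : ℕ → ℕ, Computable f ∧ ∃ A : List Bool → List Bool, PolyTime A ∧
    ∀ (M : List (List Bool)) (k : ℕ), A (bits (M, k, List.replicate (f k) ())) = [true] ↔
      ∃ s : Finset (Fin M.length), (matGraph M).IsNClique k s

/-- `OLD(Unan, ψ_z)` is solvable in polynomial time. -/
def OLDInP (z : ℕ → ℕ) : Prop :=
  ∃ D : List Bool → List Bool, PolyTime D ∧ ∀ I, Valid I → (D (bits I) = [true] ↔ OLD z I)

theorem main {z g : ℕ → ℕ} (hz : ∀ m, z m ≤ m) (hg : Computable g)
    (hzg : ∀ B m, g B ≤ m → B ≤ min (z m) (m - z m)) (h : OLDInP z) : CliqueFPT := by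
  obtain ⟨D, hD, hdec⟩ := h
  refine ⟨fun k => g (k * (k - 1) / 2 + k), hg.comp (Primrec.to_comp ?_), alg D, polyTime_alg hD,
    fun M k => ?_⟩
  · exact Primrec.nat_add.comp (Primrec.nat_div.comp (Primrec.nat_mul.comp Primrec.id
      (Primrec.nat_sub.comp Primrec.id (Primrec.const 1))) (Primrec.const 2)) Primrec.id
  · rw [alg_bits]
    refine ans_spec hdec hz M k (List.replicate (g (k * (k - 1) / 2 + k)) ()) fun m hm => ?_
    rw [List.length_replicate] at hm
    exact hzg _ m hm

/-- **Unanimity lobbying `OLD(Unan, ψ_z)` is not solvable in polynomial time for any quota `z` with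
`min (z m) (m - z m) → ∞` (with a computable rate), in particular for any computable `z` for which
`min (z m) (m - z m)` is nondecreasing and unbounded, unless Clique is fixed-parameter tractable.**
-/
theorem result :
    (∀ z g : ℕ → ℕ, (∀ m, z m ≤ m) → Computable g →
      (∀ B m, g B ≤ m → B ≤ min (z m) (m - z m)) → OLDInP z → CliqueFPT) ∧
    (∀ z : ℕ → ℕ, (∀ m, z m ≤ m) → Computable z → Monotone (fun m => min (z m) (m - z m)) →
      (∀ B, ∃ m, B ≤ min (z m) (m - z m)) → OLDInP z → CliqueFPT) := by
  refine ⟨fun z g hz hg hzg h => main hz hg hzg h, fun z hz hcomp hmono hunb h => ?_⟩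
  obtain ⟨g, hg, hgB⟩ := computable_find hcomp hunb
  exact main hz hg (fun B m hm => (hgB B).trans (hmono hm)) h

end Pool.Agent.Results.MP_8eff38_lc.SuperConstantQuota
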